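import Pool.Agent.T6.H50.QN.All3

/-!
# `MP_3fd3b2_an`: for `q` near `2` ellipsoids are not maximisers

For every odd dimension `d ≥ 3` and for every dimension `d ≥ 70` there is `q₀ > 2` such that for
all `2 < q < q₀` every ellipsoid of measure one has strictly smaller `‖\hat 1_A‖_q` than the unit
cube; so no maximiser for `(d, q)` agrees almost everywhere with an ellipsoid.
-/

open MeasureTheory Real Filter Topology Set
open scoped ENNReal RealInnerProductSpace

namespace Pool.Agent.Results.MP_3fd3b2_an.EllipsoidsNearTwo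

open H50.QN

/-- `‖\hat 1_A‖_{L^q(ℝ^d)}` -/
noncomputable def normFt {d : ℕ} (q : ℝ) (A : Set (E d)) : ℝ≥0∞ :=
  eLpNorm (ft A) (ENNReal.ofReal q) volume

/-- `A` is a maximiser for `(d, q)` -/
def IsMaximiser {d : ℕ} (q : ℝ) (A : Set (E d)) : Prop :=
  NullMeasurableSet A ∧ volume A = 1 ∧
    ∀ B : Set (E d), NullMeasurableSet B → volume B = 1 → normFt q B ≤ normFt q A

lemma normFt_eq {d : ℕ} {q : ℝ} (hq : 0 < q) (A : Set (E d)) :
    normFt q A = Phi q A ^ (1 / q) := by
  unfold normFt Phi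
  rw [eLpNorm_eq_lintegral_rpow_enorm_toReal (by simpa using hq) ENNReal.ofReal_ne_top]
  rw [ENNReal.toReal_ofReal hq.le]

lemma normFt_lt {d : ℕ} {q : ℝ} (hq : 0 < q) {A B : Set (E d)} (h : Phi q A < Phi q B) :
    normFt q A < normFt q B := by
  rw [normFt_eq hq, normFt_eq hq]
  exact ENNReal.rpow_lt_rpow h (by positivity)

lemma ft_congr {d : ℕ} {A B : Set (E d)} (h : A =ᵐ[volume] B) : ft A = ft B := by
  funext ξ
  unfold ft
  exact setIntegral_congr_set h

/-- For `d` odd `≥ 3` or `d ≥ 70` and `q > 2` close enough to `2`, every ellipsoid of volume one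
is beaten by the unit cube, and no maximiser is (a.e. equal to) an ellipsoid. -/
theorem result (d : ℕ) (hd : (Odd d ∧ 3 ≤ d) ∨ 70 ≤ d) :
    ∃ q₀ : ℝ, 2 < q₀ ∧ ∀ q : ℝ, 2 < q → q < q₀ →
      (∀ A : Set (E d), IsEll A → volume A = 1 → normFt q A < normFt q (cube d)) ∧
      (NullMeasurableSet (cube d) ∧ volume (cube d) = 1) ∧
      (∀ A : Set (E d), IsMaximiser q A → ¬ ∃ B : Set (E d), IsEll B ∧ A =ᵐ[volume] B) := by
  obtain ⟨q₀, hq₀, h⟩ := allDim d hd
  refine ⟨q₀, hq₀, fun q hq hq' => ?_⟩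
  have hc := cub d q (by linarith)
  have h1 : ∀ A : Set (E d), IsEll A → volume A = 1 → normFt q A < normFt q (cube d) :=
    fun A hA hv => normFt_lt (by linarith) (h q hq hq' A hA hv)
  refine ⟨h1, ⟨hc.2.1, hc.1⟩, ?_⟩
  rintro A ⟨-, hvA, hmax⟩ ⟨B, hB, hAB⟩
  have h2 := hmax (cube d) hc.2.1 hc.1
  have h3 := h1 B hB (by rw [← measure_congr hAB]; exact hvA)
  have h4 : normFt q A = normFt q B := by
    unfold normFt
    rw [ft_congr hAB]
  rw [h4] at h2
  exact absurd h3 (not_lt.mpr h2)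

end Pool.Agent.Results.MP_3fd3b2_an.EllipsoidsNearTwo
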